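import Pool.Agent.N641.VB.Stm

/-!
# Project VB: types are invariant under isomorphisms of intervals
-/

set_option autoImplicit false

namespace Pool.Agent.N755.VB

open Pool.Agent.N641.VB

theorem TRN : Pool.Agent.N641.VB.S_TRN := by
  intro M _ A A' _ _ mu mu' e a0 hle hsurj hmu
  have hmono : ∀ b ≤ a0, e b ≤ e a0 := fun b hb => (hle b hb a0 le_rfl).1 hb
  have hbot : e ⊥ = ⊥ := by
    obtain ⟨b, hb, hb'⟩ := hsurj ⊥ bot_le
    have h1 := (hle ⊥ bot_le b hb).1 bot_le
    rw [hb'] at h1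
    exact le_bot_iff.1 h1
  have hinj : ∀ b ≤ a0, ∀ c ≤ a0, e b = e c → b = c := fun b hb c hc h =>
    le_antisymm ((hle b hb c hc).2 h.le) ((hle c hc b hb).2 h.ge)
  have hsd : ∀ a ≤ a0, ∀ b ≤ a, e (a \ b) = e a \ e b := by
    intro a ha b hb
    have hb0 := hb.trans ha
    have hab0 : a \ b ≤ a0 := sdiff_le.trans ha
    apply le_antisymm
    · rw [le_sdiff]
      refine ⟨(hle _ hab0 a ha).1 sdiff_le, ?_⟩
      rw [disjoint_iff]
      obtain ⟨d, hd, hd'⟩ := hsurj (e (a \ b) ⊓ e b) (inf_le_right.trans (hmono b hb0))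
      have h1 : d ≤ a \ b := (hle d hd _ hab0).2 (by rw [hd']; exact inf_le_left)
      have h2 : d ≤ b := (hle d hd b hb0).2 (by rw [hd']; exact inf_le_right)
      have h3 : d = ⊥ := le_bot_iff.1 (disjoint_sdiff_self_left h1 h2)
      rw [← hd', h3, hbot]
    · obtain ⟨c, hc, hc'⟩ := hsurj (e a \ e b) (sdiff_le.trans (hmono a ha))
      rw [← hc']
      refine (hle c hc _ hab0).1 ?_
      rw [le_sdiff]
      have h1 : c ≤ a := (hle c hc a ha).2 (by rw [hc']; exact sdiff_le)
      refine ⟨h1, ?_⟩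
      rw [disjoint_iff]
      have hd0 : c ⊓ b ≤ a0 := inf_le_left.trans hc
      have h2 : e (c ⊓ b) ≤ e a \ e b := by
        rw [← hc']
        exact (hle _ hd0 c hc).1 inf_le_left
      have h3 : e (c ⊓ b) ≤ e b := (hle _ hd0 b hb0).1 inf_le_right
      have h4 : e (c ⊓ b) = ⊥ := le_bot_iff.1 (disjoint_sdiff_self_left h2 h3)
      exact hinj _ hd0 _ bot_le (h4.trans hbot.symm)
  have key : ∀ k, ∀ a ≤ a0, tp mu' k (e a) = tp mu k a := by
    intro k
    induction k with
    | zero =>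
      intro a ha
      exact propext ⟨fun h => hinj a ha ⊥ bot_le (Eq.trans h hbot.symm), fun h => by
        have h' : a = ⊥ := h
        show e a = ⊥
        rw [h', hbot]⟩
    | succ k ih =>
      intro a ha
      refine Prod.ext (hmu a ha) ?_
      ext q
      constructor
      · rintro ⟨c, hc, rfl⟩
        obtain ⟨b, hb, rfl⟩ := hsurj c (hc.trans (hmono a ha))
        have hba : b ≤ a := (hle b hb a ha).2 hc
        refine ⟨b, hba, ?_⟩
        rw [← hsd a ha b hba, ih b hb, ih _ (sdiff_le.trans ha)]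
      · rintro ⟨b, hb, rfl⟩
        refine ⟨e b, (hle b (hb.trans ha) a ha).1 hb, ?_⟩
        rw [← hsd a ha b hb, ih b (hb.trans ha), ih _ (sdiff_le.trans ha)]
  intro a ha
  funext k
  exact key k a ha

end Pool.Agent.N755.VB
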